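import Pool.Agent.Helper95.HV.Stmts
import Pool.Agent.Helper95.PM.MOMM

/-! # Row SUMZ (MP_56acfd_mp): sum over the dyadic scales -/

set_option autoImplicit false

namespace Pool.Agent.Helper76.HV

open MeasureTheory Filter Pool.Agent.Helper95.PW Pool.Agent.Helper95.LN Pool.Agent.Helper95.CF
  Pool.Agent.Helper95.HV

namespace SUMZ76

theorem root4 {b C M w : ℝ} (hb : 0 ≤ b) (hC : 0 ≤ C) (hM : 0 ≤ M) (hw : 0 ≤ w)
    (h : b ^ 2 ≤ C * M ^ 2 * w ^ 4) :
    Real.sqrt b ≤ Real.sqrt (Real.sqrt C) * Real.sqrt M * w := by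
  have h1 : b ≤ Real.sqrt C * M * w ^ 2 := by
    refine (pow_le_pow_iff_left₀ hb (by positivity) two_ne_zero).1 ?_
    refine h.trans (le_of_eq ?_)
    rw [mul_pow, mul_pow, Real.sq_sqrt hC]
    ring
  refine (Real.sqrt_le_sqrt h1).trans (le_of_eq ?_)
  rw [Real.sqrt_mul (by positivity), Real.sqrt_mul (by positivity), Real.sqrt_sq hw]

/-- the inner ball -/
theorem num_in {z c r ν : ℝ} (hz : 1 ≤ z) (hc : 0 < c) (hc1 : c ≤ 1) (h1 : c / z ≤ r)
    (h2 : r ≤ 1 / z) (hν : ν = 1 + (z ^ (7 / 3 : ℝ) * r ^ 2) ^ (3 / 5 : ℝ)) :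
    ν * (z ^ (7 / 3 : ℝ) / r ^ 2 + ν / r ^ 4 + z ^ (13 / 3 : ℝ)) ≤
      8 / c ^ 4 * (z ^ (17 / 15 : ℝ)) ^ 4 := by
  have hz0 : 0 < z := by linarith
  have hr : 0 < r := lt_of_lt_of_le (by positivity) h1
  have n1 : ν ≤ 2 * z ^ (1 / 5 : ℝ) := by
    have a1 : z ^ (7 / 3 : ℝ) * r ^ 2 ≤ z ^ (1 / 3 : ℝ) := by
      have a2 : r ^ 2 ≤ (1 / z) ^ 2 := pow_le_pow_left₀ hr.le h2 2
      have a3 : z ^ (7 / 3 : ℝ) * (1 / z) ^ 2 = z ^ (1 / 3 : ℝ) := by
        have : z ^ (7 / 3 : ℝ) = z ^ (1 / 3 : ℝ) * z ^ 2 := by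
          rw [← Real.rpow_natCast, ← Real.rpow_add hz0]
          norm_num
        rw [this]
        field_simp
      rw [← a3]
      exact mul_le_mul_of_nonneg_left a2 (by positivity)
    have a4 := Real.rpow_le_rpow (by positivity) a1 (by norm_num : (0 : ℝ) ≤ 3 / 5)
    rw [← Real.rpow_mul hz0.le] at a4
    have a5 : (1 : ℝ) ≤ z ^ (1 / 5 : ℝ) := Real.one_le_rpow hz (by norm_num)
    have a6 : (1 / 3 * (3 / 5) : ℝ) = 1 / 5 := by norm_num
    rw [a6] at a4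
    rw [hν]
    linarith
  have n2 : 1 / r ≤ z / c := by
    rw [div_le_div_iff₀ hr hc]
    rw [div_le_iff₀ hz0] at h1
    linarith
  have n0 : 0 < 1 / r := by positivity
  have n3 : z ^ (7 / 3 : ℝ) / r ^ 2 ≤ z ^ (13 / 3 : ℝ) / c ^ 4 := by
    have a1 : (1 / r) ^ 2 ≤ (z / c) ^ 2 := pow_le_pow_left₀ n0.le n2 2
    have a2 : z ^ (13 / 3 : ℝ) = z ^ (7 / 3 : ℝ) * z ^ 2 := by
      rw [← Real.rpow_natCast, ← Real.rpow_add hz0]
      norm_num
    have a3 : (z / c) ^ 2 ≤ z ^ 2 / c ^ 4 := by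
      rw [div_pow]
      apply div_le_div_of_nonneg_left (by positivity) (by positivity)
      exact pow_le_pow_of_le_one hc.le hc1 (by norm_num)
    calc z ^ (7 / 3 : ℝ) / r ^ 2 = z ^ (7 / 3 : ℝ) * (1 / r) ^ 2 := by
          field_simp
      _ ≤ z ^ (7 / 3 : ℝ) * (z ^ 2 / c ^ 4) := by
          apply mul_le_mul_of_nonneg_left (a1.trans a3) (by positivity)
      _ = _ := by rw [a2]; ring
  have n4 : ν / r ^ 4 ≤ 2 * z ^ (13 / 3 : ℝ) / c ^ 4 := by
    have a1 : (1 / r) ^ 4 ≤ (z / c) ^ 4 := pow_le_pow_left₀ n0.le n2 4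
    have a2 : z ^ (1 / 5 : ℝ) * z ^ 4 ≤ z ^ (13 / 3 : ℝ) := by
      rw [← Real.rpow_natCast, ← Real.rpow_add hz0]
      apply Real.rpow_le_rpow_of_exponent_le hz
      norm_num
    calc ν / r ^ 4 = ν * (1 / r) ^ 4 := by
          field_simp
      _ ≤ (2 * z ^ (1 / 5 : ℝ)) * (z / c) ^ 4 := by
          apply mul_le_mul n1 a1 (by positivity) (by positivity)
      _ = 2 * (z ^ (1 / 5 : ℝ) * z ^ 4) / c ^ 4 := by
          rw [div_pow]
          ring
      _ ≤ _ := by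
          apply div_le_div_of_nonneg_right _ (by positivity)
          linarith
  have n5 : z ^ (13 / 3 : ℝ) ≤ z ^ (13 / 3 : ℝ) / c ^ 4 := by
    rw [le_div_iff₀ (by positivity)]
    have : c ^ 4 ≤ 1 := pow_le_one₀ hc.le hc1
    have h0 : 0 < z ^ (13 / 3 : ℝ) := by positivity
    nlinarith
  have hν0 : 0 < ν := by
    rw [hν]
    positivity
  have n6 : z ^ (7 / 3 : ℝ) / r ^ 2 + ν / r ^ 4 + z ^ (13 / 3 : ℝ) ≤
      4 / c ^ 4 * z ^ (13 / 3 : ℝ) := by
    have e1 : 4 / c ^ 4 * z ^ (13 / 3 : ℝ) = z ^ (13 / 3 : ℝ) / c ^ 4 +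
        2 * z ^ (13 / 3 : ℝ) / c ^ 4 + z ^ (13 / 3 : ℝ) / c ^ 4 := by ring
    rw [e1]
    linarith
  have n7 : z ^ (1 / 5 : ℝ) * z ^ (13 / 3 : ℝ) = (z ^ (17 / 15 : ℝ)) ^ 4 := by
    rw [← Real.rpow_natCast, ← Real.rpow_mul hz0.le, ← Real.rpow_add hz0]
    norm_num
  calc _ ≤ (2 * z ^ (1 / 5 : ℝ)) * (4 / c ^ 4 * z ^ (13 / 3 : ℝ)) :=
        mul_le_mul n1 n6 (by positivity) (by positivity)
    _ = 8 / c ^ 4 * (z ^ (1 / 5 : ℝ) * z ^ (13 / 3 : ℝ)) := by ring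
    _ = _ := by rw [n7]

/-- one shell -/
theorem num_sh {z c r ν : ℝ} (hz : 1 ≤ z) (hc : 0 < c) (hc1 : c ≤ 1) (h1 : c / z ≤ r)
    (hν : ν = 1 + (z ^ (7 / 3 : ℝ) * r ^ 2) ^ (3 / 5 : ℝ)) :
    ν * (z ^ (7 / 3 : ℝ) / r ^ 2 + ν / r ^ 4) ≤
      6 / c ^ 5 * (z ^ (14 / 15 : ℝ) * r ^ (-(1 / 5) : ℝ)) ^ 4 := by
  have hz0 : 0 < z := by linarith
  have hr : 0 < r := lt_of_lt_of_le (by positivity) h1
  set P : ℝ := (z ^ (7 / 3 : ℝ) * r ^ 2) ^ (3 / 5 : ℝ) with hP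
  have hP0 : 0 < P := by rw [hP]; positivity
  have eP : P = z ^ (7 / 5 : ℝ) * r ^ (6 / 5 : ℝ) := by
    rw [hP, Real.mul_rpow (by positivity) (by positivity), ← Real.rpow_mul hz0.le,
      ← Real.rpow_natCast, ← Real.rpow_mul hr.le]
    norm_num
  have p1 : c ^ 2 ≤ P := by
    have a1 : c ^ 2 ≤ z ^ (7 / 3 : ℝ) * r ^ 2 := by
      rw [div_le_iff₀ hz0] at h1
      have a2 : c ^ 2 ≤ (r * z) ^ 2 := pow_le_pow_left₀ hc.le h1 2
      have a3 : z ^ 2 ≤ z ^ (7 / 3 : ℝ) := by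
        rw [← Real.rpow_natCast]
        apply Real.rpow_le_rpow_of_exponent_le hz
        norm_num
      calc c ^ 2 ≤ (r * z) ^ 2 := a2
        _ = z ^ 2 * r ^ 2 := by ring
        _ ≤ _ := mul_le_mul_of_nonneg_right a3 (by positivity)
    have a4 := Real.rpow_le_rpow (by positivity) a1 (by norm_num : (0 : ℝ) ≤ 3 / 5)
    refine le_trans ?_ a4
    have a5 : c ^ 2 ≤ 1 := pow_le_one₀ hc.le hc1
    calc c ^ 2 = (c ^ 2) ^ (1 : ℝ) := (Real.rpow_one _).symm
      _ ≤ (c ^ 2) ^ (3 / 5 : ℝ) :=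
        Real.rpow_le_rpow_of_exponent_ge (by positivity) a5 (by norm_num)
  have p2 : ν ≤ 2 / c ^ 2 * P := by
    have a5 : c ^ 2 ≤ 1 := pow_le_one₀ hc.le hc1
    have a6 : 1 ≤ P / c ^ 2 := by rw [le_div_iff₀ (by positivity)]; linarith
    have a7 : P ≤ P / c ^ 2 := by
      rw [le_div_iff₀ (by positivity)]
      nlinarith
    have e1 : 2 / c ^ 2 * P = P / c ^ 2 + P / c ^ 2 := by ring
    rw [hν, e1]
    linarith
  have hν0 : 0 < ν := by
    rw [hν]
    positivity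
  set Q : ℝ := (z ^ (14 / 15 : ℝ) * r ^ (-(1 / 5) : ℝ)) ^ 4 with hQ
  have eQ : Q = z ^ (56 / 15 : ℝ) * r ^ (-(4 / 5) : ℝ) := by
    rw [hQ, mul_pow, ← Real.rpow_natCast, ← Real.rpow_natCast, ← Real.rpow_mul hz0.le,
      ← Real.rpow_mul hr.le]
    norm_num
  have hQ0 : 0 < Q := by rw [hQ]; positivity
  have q1 : P * (z ^ (7 / 3 : ℝ) / r ^ 2) = Q := by
    have a0 : z ^ (7 / 3 : ℝ) / r ^ 2 = z ^ (7 / 3 : ℝ) * r ^ (-2 : ℝ) := by
      rw [div_eq_mul_inv, Real.rpow_neg hr.le]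
      norm_num
    have : z ^ (7 / 5 : ℝ) * r ^ (6 / 5 : ℝ) * (z ^ (7 / 3 : ℝ) * r ^ (-2 : ℝ)) =
        (z ^ (7 / 5 : ℝ) * z ^ (7 / 3 : ℝ)) * (r ^ (6 / 5 : ℝ) * r ^ (-2 : ℝ)) := by ring
    rw [eP, eQ, a0, this, ← Real.rpow_add hz0, ← Real.rpow_add hr]
    norm_num
  have q2 : P ^ 2 / r ^ 4 ≤ Q / c := by
    have a1 : P ^ 2 / r ^ 4 = z ^ (14 / 5 : ℝ) * r ^ (-(8 / 5) : ℝ) := by
      rw [eP, div_eq_mul_inv, ← Real.rpow_natCast r, ← Real.rpow_neg hr.le, mul_pow,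
        ← Real.rpow_natCast, ← Real.rpow_natCast, ← Real.rpow_mul hz0.le, ← Real.rpow_mul hr.le,
        mul_assoc, ← Real.rpow_add hr]
      norm_num
    have a2 : r ^ (-(4 / 5) : ℝ) ≤ c⁻¹ * z ^ (14 / 15 : ℝ) := by
      have b1 : r ^ (-(4 / 5) : ℝ) ≤ (c / z) ^ (-(4 / 5) : ℝ) :=
        Real.rpow_le_rpow_of_nonpos (by positivity) h1 (by norm_num)
      have b2 : (c / z) ^ (-(4 / 5) : ℝ) = c ^ (-(4 / 5) : ℝ) * z ^ (4 / 5 : ℝ) := by
        rw [Real.div_rpow hc.le hz0.le, Real.rpow_neg hz0.le, div_inv_eq_mul]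
      have b3 : c ^ (-(4 / 5) : ℝ) ≤ c⁻¹ := by
        rw [← Real.rpow_neg_one]
        exact Real.rpow_le_rpow_of_exponent_ge hc hc1 (by norm_num)
      have b4 : z ^ (4 / 5 : ℝ) ≤ z ^ (14 / 15 : ℝ) :=
        Real.rpow_le_rpow_of_exponent_le hz (by norm_num)
      rw [b2] at b1
      exact b1.trans (mul_le_mul b3 b4 (by positivity) (by positivity))
    rw [a1, eQ]
    have a3 : z ^ (14 / 5 : ℝ) * r ^ (-(8 / 5) : ℝ) =
        z ^ (14 / 5 : ℝ) * r ^ (-(4 / 5) : ℝ) * r ^ (-(4 / 5) : ℝ) := by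
      rw [mul_assoc, ← Real.rpow_add hr]
      norm_num
    rw [a3]
    calc z ^ (14 / 5 : ℝ) * r ^ (-(4 / 5) : ℝ) * r ^ (-(4 / 5) : ℝ)
        ≤ z ^ (14 / 5 : ℝ) * r ^ (-(4 / 5) : ℝ) * (c⁻¹ * z ^ (14 / 15 : ℝ)) :=
          mul_le_mul_of_nonneg_left a2 (by positivity)
      _ = (z ^ (14 / 5 : ℝ) * z ^ (14 / 15 : ℝ)) * r ^ (-(4 / 5) : ℝ) / c := by
          rw [div_eq_mul_inv]
          ring
      _ = _ := by
          rw [← Real.rpow_add hz0]
          norm_num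
  have hx : 0 < z ^ (7 / 3 : ℝ) / r ^ 2 := by positivity
  have q3 : ν * (z ^ (7 / 3 : ℝ) / r ^ 2) ≤ 2 / c ^ 2 * Q := by
    have := mul_le_mul_of_nonneg_right p2 hx.le
    rw [mul_assoc (2 / c ^ 2), q1] at this
    exact this
  have q4 : ν * (ν / r ^ 4) ≤ 4 / c ^ 4 * (Q / c) := by
    have a1 : ν ^ 2 ≤ (2 / c ^ 2 * P) ^ 2 := pow_le_pow_left₀ hν0.le p2 2
    calc ν * (ν / r ^ 4) = ν ^ 2 / r ^ 4 := by ring
      _ ≤ (2 / c ^ 2 * P) ^ 2 / r ^ 4 := div_le_div_of_nonneg_right a1 (by positivity)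
      _ = 4 / c ^ 4 * (P ^ 2 / r ^ 4) := by ring
      _ ≤ _ := mul_le_mul_of_nonneg_left q2 (by positivity)
  have q5 : 2 / c ^ 2 ≤ 2 / c ^ 5 :=
    div_le_div_of_nonneg_left (by norm_num) (by positivity)
      (pow_le_pow_of_le_one hc.le hc1 (by norm_num))
  have q6 : 4 / c ^ 4 * (Q / c) = 4 / c ^ 5 * Q := by
    field_simp
  calc _ = ν * (z ^ (7 / 3 : ℝ) / r ^ 2) + ν * (ν / r ^ 4) := by ring
    _ ≤ 2 / c ^ 5 * Q + 4 / c ^ 5 * Q := by
        rw [q6] at q4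
        have := mul_le_mul_of_nonneg_right q5 hQ0.le
        linarith
    _ = _ := by ring

theorem chain (s t : ℕ → ℝ) (h : ∀ i, s i ≤ t i + s (i + 1)) (I : ℕ) :
    s 0 ≤ ∑ i ∈ Finset.range I, t i + s I := by
  induction I with
  | zero => simp
  | succ I ih =>
    rw [Finset.sum_range_succ]
    linarith [h I]

end SUMZ76

open SUMZ76 in
/-- row SUMZ -/
theorem SUMZ (hPSZ : ST_PSZ) (hPIZ : ST_PIZ) (hPRZ : ST_PRZ) (hFLD : ST_FLD) : ST_SUMZ := by
  intro d hd hd1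
  obtain ⟨C1, hC1, hP⟩ := hPSZ d hd hd1
  obtain ⟨C2, hC2, hI⟩ := hPIZ d hd hd1
  obtain ⟨C3, hC3, hR⟩ := hPRZ d hd hd1
  obtain ⟨K, hK, hF⟩ := hFLD
  set c : ℝ := d / 8 with hc
  have hc0 : 0 < c := by positivity
  have hc1 : c ≤ 1 := by rw [hc]; linarith
  set q : ℝ := (2 : ℝ) ^ (-(1 / 5) : ℝ) with hq
  have hq0 : 0 < q := by rw [hq]; positivity
  have hq1 : q < 1 := by
    rw [hq]
    exact Real.rpow_lt_one_of_one_lt_of_neg (by norm_num) (by norm_num)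
  set A1 : ℝ := Real.sqrt (Real.sqrt (C1 * (6 / c ^ 5))) with hA1
  set A2 : ℝ := Real.sqrt (Real.sqrt (C2 * (8 / c ^ 4))) with hA2
  set A3 : ℝ := Real.sqrt (Real.sqrt (C3 * 2)) with hA3
  set D : ℝ := A3 + (A1 * (c ^ (-(1 / 5) : ℝ) * (1 / (1 - q))) + A2) with hD
  have hq2 : 0 < 1 - q := by linarith
  have hA1' : 0 < A1 := by positivity
  have hA2' : 0 < A2 := by positivity
  have hA3' : 0 < A3 := by positivity
  have hD0 : 0 < D := by positivity
  refine ⟨3 * D ^ 2, by positivity, ?_⟩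
  intro z E n M X Z φ G hdat hM1 hE hG hlog
  have hz := hdat.z1
  have hz0 : 0 < z := by linarith
  have hM : (0 : ℝ) ≤ M := Nat.cast_nonneg M
  -- the radii
  set r : ℕ → ℝ := fun i => c / 2 ^ i with hr
  have hr0 : ∀ i, 0 < r i := fun i => by
    simp only [hr]
    positivity
  have hrle : ∀ i, r i ≤ c := fun i => by
    simp only [hr]
    exact div_le_self hc0.le (one_le_pow₀ (by norm_num))
  have hrd : ∀ i, r i ≤ d / 4 := fun i => (hrle i).trans (by rw [hc]; linarith)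
  have hr2 : ∀ i, 2 * r (i + 1) = r i := fun i => by
    simp only [hr]
    rw [pow_succ]
    field_simp
  have hanti : ∀ i j, i ≤ j → r j ≤ r i := by
    intro i j hij
    simp only [hr]
    apply div_le_div_of_nonneg_left hc0.le (by positivity)
    exact pow_le_pow_right₀ (by norm_num) hij
  obtain ⟨I, hI1, hI2⟩ : ∃ I, r I ≤ 1 / z ∧ c / z ≤ r I := by
    by_cases h : z * c ≤ 1
    · refine ⟨0, ?_, ?_⟩
      · simp only [hr, pow_zero, div_one]
        rw [le_div_iff₀ hz0]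
        linarith
      · simp only [hr, pow_zero, div_one]
        exact div_le_self hc0.le hz
    · push Not at h
      obtain ⟨j, hj1, hj2⟩ := exists_nat_pow_near h.le (by norm_num : (1 : ℝ) < 2)
      refine ⟨j + 1, ?_, ?_⟩
      · simp only [hr]
        rw [div_le_div_iff₀ (by positivity) hz0]
        linarith
      · simp only [hr]
        rw [div_le_div_iff₀ hz0 (by positivity), pow_succ]
        have hc8 : c ≤ 1 / 8 := by rw [hc]; linarith
        have h2 : (2 : ℝ) ^ j * 2 ≤ z := by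
          nlinarith
        exact mul_le_mul_of_nonneg_left h2 hc0.le
  have hsc : ∀ (m : Fin 3) (i : ℕ), Scale (gN X m (r i)) K (r i) := fun m i =>
    (hF M X d (r i) (r i) m hd hdat.sep (hr0 i) le_rfl (hrd i)).1
  have key : ∀ m : Fin 3, Real.sqrt (sq (fun s x => ∑ k, G k m s x)) ≤
      D * Real.sqrt M * z ^ (17 / 15 : ℝ) := by
    intro m
    -- inner
    have k1 : Real.sqrt (sq (PG (gN X m (r I)) φ G)) ≤ A2 * Real.sqrt M * z ^ (17 / 15 : ℝ) := by
      have h1 := hI z E (r I) _ n M X Z φ G m hdat hM1 hE hG (hr0 I) (hrd I) rfl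
      have h2 := num_in hz hc0 hc1 hI2 hI1 (ν := 1 + (z ^ (7 / 3 : ℝ) * r I ^ 2) ^ (3 / 5 : ℝ)) rfl
      apply root4 (MOM2_sq_nonneg _) (by positivity) hM (by positivity)
      refine h1.trans ?_
      have h3 := mul_le_mul_of_nonneg_left h2 (show 0 ≤ C2 * (M : ℝ) ^ 2 by positivity)
      refine h3.trans (le_of_eq ?_)
      ring
    -- shells
    have k2 : ∀ i, c / z ≤ r (i + 1) → Real.sqrt (sq (PG (fun y => gN X m (r i) y -
        gN X m (r (i + 1)) y) φ G)) ≤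
        A1 * Real.sqrt M * (z ^ (14 / 15 : ℝ) * r (i + 1) ^ (-(1 / 5) : ℝ)) := by
      intro i hi
      have h1 := hP z E (r (i + 1)) _ n M X Z φ G m hdat hM1 hE hG (hr0 _)
        (by rw [hr2]; exact hrd i) rfl
      rw [hr2] at h1
      have h2 := num_sh hz hc0 hc1 hi
        (ν := 1 + (z ^ (7 / 3 : ℝ) * r (i + 1) ^ 2) ^ (3 / 5 : ℝ)) rfl
      have hrp : 0 < r (i + 1) := hr0 _
      apply root4 (MOM2_sq_nonneg _) (by positivity) hM (by positivity)
      refine h1.trans ?_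
      have h3 := mul_le_mul_of_nonneg_left h2 (show 0 ≤ C1 * (M : ℝ) ^ 2 by positivity)
      refine h3.trans (le_of_eq ?_)
      ring
    -- chain
    have k3 : ∀ i, Real.sqrt (sq (PG (gN X m (r i)) φ G)) ≤
        Real.sqrt (sq (PG (fun y => gN X m (r i) y - gN X m (r (i + 1)) y) φ G)) +
          Real.sqrt (sq (PG (gN X m (r (i + 1))) φ G)) := by
      intro i
      rw [MOM2_PG_split (hsc m i).sm (hsc m (i + 1)).sm φ G]
      have hd' := (hF M X d (r (i + 1)) (r i) m hd hdat.sep (hr0 _)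
        (hanti i (i + 1) (Nat.le_succ i)) (hrd i)).2.1
      exact MOM2_tri _ _ (MOMM_memLp hd' hG.lp hG.lpG) (MOMM_memLp (hsc m (i + 1)) hG.lp hG.lpG)
    have k4 := chain _ _ k3 I
    have k5 : ∑ i ∈ Finset.range I, Real.sqrt (sq (PG (fun y => gN X m (r i) y -
        gN X m (r (i + 1)) y) φ G)) ≤
        A1 * Real.sqrt M * (z ^ (14 / 15 : ℝ) * (r I ^ (-(1 / 5) : ℝ) * (1 / (1 - q)))) := by
      have e1 : ∀ i ∈ Finset.range I, r (i + 1) ^ (-(1 / 5) : ℝ) =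
          r I ^ (-(1 / 5) : ℝ) * q ^ (I - 1 - i) := by
        intro i hi
        rw [Finset.mem_range] at hi
        have e2 : r (i + 1) = r I * 2 ^ (I - 1 - i) := by
          simp only [hr]
          have e3 : (2 : ℝ) ^ I = 2 ^ (i + 1) * 2 ^ (I - 1 - i) := by
            rw [← pow_add]
            congr 1
            omega
          rw [e3]
          field_simp
        rw [e2, Real.mul_rpow (hr0 I).le (by positivity), hq, ← Real.rpow_natCast,
          ← Real.rpow_mul (by norm_num), ← Real.rpow_natCast, ← Real.rpow_mul (by norm_num),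
          mul_comm ((I - 1 - i : ℕ) : ℝ)]
      calc _ ≤ ∑ i ∈ Finset.range I, A1 * Real.sqrt M *
            (z ^ (14 / 15 : ℝ) * (r I ^ (-(1 / 5) : ℝ) * q ^ (I - 1 - i))) := by
            apply Finset.sum_le_sum
            intro i hi
            rw [← e1 i hi]
            apply k2 i
            rw [Finset.mem_range] at hi
            exact hI2.trans (hanti (i + 1) I hi)
        _ = A1 * Real.sqrt M * (z ^ (14 / 15 : ℝ) * (r I ^ (-(1 / 5) : ℝ) *
            ∑ i ∈ Finset.range I, q ^ (I - 1 - i))) := by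
            rw [Finset.mul_sum, Finset.mul_sum, Finset.mul_sum]
        _ ≤ _ := by
            have hrI := hr0 I
            apply mul_le_mul_of_nonneg_left _ (by positivity)
            apply mul_le_mul_of_nonneg_left _ (by positivity)
            apply mul_le_mul_of_nonneg_left _ (by positivity)
            rw [Finset.sum_range_reflect (fun i => q ^ i) I, geom_sum_eq hq1.ne,
              ← neg_div_neg_eq, neg_sub, neg_sub]
            apply div_le_div_of_nonneg_right _ hq2.le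
            have := pow_pos hq0 I
            linarith
    have k6 : z ^ (14 / 15 : ℝ) * (r I ^ (-(1 / 5) : ℝ) * (1 / (1 - q))) ≤
        (c ^ (-(1 / 5) : ℝ) * (1 / (1 - q))) * z ^ (17 / 15 : ℝ) := by
      have b1 : r I ^ (-(1 / 5) : ℝ) ≤ (c / z) ^ (-(1 / 5) : ℝ) :=
        Real.rpow_le_rpow_of_nonpos (by positivity) hI2 (by norm_num)
      have b2 : (c / z) ^ (-(1 / 5) : ℝ) = c ^ (-(1 / 5) : ℝ) * z ^ (1 / 5 : ℝ) := by
        rw [Real.div_rpow hc0.le hz0.le, Real.rpow_neg hz0.le, div_inv_eq_mul]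
      rw [b2] at b1
      calc z ^ (14 / 15 : ℝ) * (r I ^ (-(1 / 5) : ℝ) * (1 / (1 - q)))
          ≤ z ^ (14 / 15 : ℝ) * ((c ^ (-(1 / 5) : ℝ) * z ^ (1 / 5 : ℝ)) * (1 / (1 - q))) := by
            apply mul_le_mul_of_nonneg_left _ (by positivity)
            exact mul_le_mul_of_nonneg_right b1 (by positivity)
        _ = (c ^ (-(1 / 5) : ℝ) * (1 / (1 - q))) * (z ^ (14 / 15 : ℝ) * z ^ (1 / 5 : ℝ)) := by
            ring
        _ = _ := by
            rw [← Real.rpow_add hz0]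
            norm_num
    have k7 := mul_le_mul_of_nonneg_left k6 (show 0 ≤ A1 * Real.sqrt M by positivity)
    -- the rest
    have k8 : Real.sqrt (sq (fun s x => (∑ k, G k m s x) - PG (gN X m c) φ G s x)) ≤
        A3 * Real.sqrt M * z ^ (17 / 15 : ℝ) := by
      have h1 := hR z E n M X Z φ G m hdat hM1 hE hG
      apply root4 (MOM2_sq_nonneg _) (by positivity) hM (by positivity)
      refine h1.trans ?_
      have h2 : z ^ (10 / 3 : ℝ) * (1 + Real.log M) ≤ 2 * (z ^ (17 / 15 : ℝ)) ^ 4 := by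
        have h3 : 1 + Real.log M ≤ 2 * z := by linarith
        calc z ^ (10 / 3 : ℝ) * (1 + Real.log M) ≤ z ^ (10 / 3 : ℝ) * (2 * z) :=
              mul_le_mul_of_nonneg_left h3 (by positivity)
          _ = 2 * (z ^ (10 / 3 : ℝ) * z ^ (1 : ℝ)) := by
              rw [Real.rpow_one]
              ring
          _ ≤ _ := by
              rw [← Real.rpow_add hz0, ← Real.rpow_natCast, ← Real.rpow_mul hz0.le]
              apply mul_le_mul_of_nonneg_left _ (by norm_num)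
              apply Real.rpow_le_rpow_of_exponent_le hz
              norm_num
      calc C3 * (M : ℝ) ^ 2 * (z ^ (10 / 3 : ℝ) * (1 + Real.log M)) ≤
            C3 * (M : ℝ) ^ 2 * (2 * (z ^ (17 / 15 : ℝ)) ^ 4) :=
            mul_le_mul_of_nonneg_left h2 (by positivity)
        _ = _ := by ring
    have hr00 : r 0 = c := by simp only [hr, pow_zero, div_one]
    have hGm : ∀ s, MemLp (fun x => ∑ k, G k m s x) 2 := fun s =>
      memLp_finsetSum _ fun k _ => hG.lpG k m s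
    have hPGm : ∀ s, MemLp (PG (gN X m c) φ G s) 2 := by
      have := MOMM_memLp (hsc m 0) hG.lp hG.lpG
      rw [hr00] at this
      exact this
    have k9 : Real.sqrt (sq (fun s x => ∑ k, G k m s x)) ≤
        Real.sqrt (sq (fun s x => (∑ k, G k m s x) - PG (gN X m c) φ G s x)) +
          Real.sqrt (sq (PG (gN X m c) φ G)) := by
      have h1 := MOM2_tri (fun s x => (∑ k, G k m s x) - PG (gN X m c) φ G s x)
        (PG (gN X m c) φ G) (fun s => (hGm s).sub (hPGm s)) hPGm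
      have h2 : (fun s x => (∑ k, G k m s x) - PG (gN X m c) φ G s x + PG (gN X m c) φ G s x) =
          fun s x => ∑ k, G k m s x := by
        funext s x
        ring
      rw [h2] at h1
      exact h1
    rw [hr00] at k4
    have e9 : D * Real.sqrt M * z ^ (17 / 15 : ℝ) = A3 * Real.sqrt M * z ^ (17 / 15 : ℝ) +
        (A1 * Real.sqrt M * ((c ^ (-(1 / 5) : ℝ) * (1 / (1 - q))) * z ^ (17 / 15 : ℝ)) +
          A2 * Real.sqrt M * z ^ (17 / 15 : ℝ)) := by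
      rw [hD]
      ring
    rw [e9]
    linarith
  have hm : ∀ m : Fin 3, Helper95.PW.sq (fun s x => ∑ k, G k m s x) ≤ D ^ 2 * (M * z ^ (34 / 15 : ℝ)) := by
    intro m
    have h7 := (Real.sqrt_le_iff.mp (key m)).2
    refine h7.trans (le_of_eq ?_)
    rw [mul_pow, mul_pow, Real.sq_sqrt hM, ← Real.rpow_natCast (z ^ (17 / 15 : ℝ)),
      ← Real.rpow_mul hz0.le, mul_assoc]
    norm_num
  unfold mom
  refine (Finset.sum_le_sum fun i _ => hm i).trans (le_of_eq ?_)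
  simp only [Finset.sum_const, Finset.card_univ, Fintype.card_fin, nsmul_eq_mul]
  push_cast
  ring

end Pool.Agent.Helper76.HV
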